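import Mathlib

/-!
The averaging process on a finite simple graph, its expected `L^1` distance to the mean,
its `L^1` mixing time, and the quantity `γ(G) = |E(G)| / λ_2(G)`.
-/

namespace Pool.Agent.helper95.Avg

open scoped Classical in
/-- One averaging step along the edge `e = {i, j}`: the coordinates `v i` and `v j` are both
replaced by `(v i + v j) / 2`, all other coordinates are unchanged. -/
noncomputable def avgStep {V : Type*} (e : Sym2 V) (v : V → ℝ) : V → ℝ :=
  fun x => if x ∈ e then Sym2.lift ⟨fun i j => (v i + v j) / 2, fun i j => by ring⟩ e else v x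

/-- The state of the averaging process started from `v` after using the edges `e_1, ..., e_t` of the
list (in this order). -/
noncomputable def run {V : Type*} (v : V → ℝ) (es : List (Sym2 V)) : V → ℝ :=
  es.foldl (fun w e => avgStep e w) v

/-- The average `(1/n) ∑ v_i` of the coordinates. -/
noncomputable def mean {V : Type*} [Fintype V] (v : V → ℝ) : ℝ :=
  (∑ x, v x) / (Fintype.card V : ℝ)

open scoped Classical in
/-- The expectation `E ‖v(t) - v̄‖₁` for the averaging process on `G` started from `v(0) = v`, when
the `t` edges are chosen independently and uniformly at random: the average of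
`‖v(t) - v̄‖₁` over all sequences of `t` edges of `G`. -/
noncomputable def expDist {V : Type*} [Fintype V] (G : SimpleGraph V) (t : ℕ) (v : V → ℝ) : ℝ :=
  (∑ s : Fin t → G.edgeSet, ∑ x, |run v (List.ofFn fun i => (s i : Sym2 V)) x - mean v|) /
    (Fintype.card G.edgeSet : ℝ) ^ t

/-- The `L^1` mixing time `t_{ε,1}(G)`: the least `t` such that `E ‖v(t) - v̄‖₁ ≤ ε` for every
starting vector with `‖v(0)‖₁ = 1`. -/
noncomputable def tmix {V : Type*} [Fintype V] (G : SimpleGraph V) (ε : ℝ) : ℕ :=
  sInf {t : ℕ | ∀ v : V → ℝ, (∑ x, |v x|) = 1 → expDist G t v ≤ ε}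

open scoped Classical in
/-- The second smallest eigenvalue (with multiplicity) of the Laplacian `D(G) - A(G)`. Here
`eigenvalues₀` lists the eigenvalues in non-increasing order, indexed by `0, ..., n - 1`. -/
noncomputable def lambda2 {V : Type*} [Fintype V] (G : SimpleGraph V) : ℝ :=
  if h : 2 ≤ Fintype.card V then
    (G.isHermitian_lapMatrix ℝ).eigenvalues₀ ⟨Fintype.card V - 2, by omega⟩
  else 0

open scoped Classical in
/-- `γ(G) = |E(G)| / λ_2(G)`. -/
noncomputable def gam {V : Type*} [Fintype V] (G : SimpleGraph V) : ℝ :=
  (Fintype.card G.edgeSet : ℝ) / lambda2 G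

end Pool.Agent.helper95.Avg
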