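import Pool.Agent.helper95.AvgDefs

/-!
General lemmas on the averaging process.
-/

namespace Pool.Agent.helper95.Avg

open Finset
open scoped Classical

variable {V : Type*} [Fintype V]

/-- Expectation of a functional of the state at time `t`. -/
noncomputable def Ex (G : SimpleGraph V) (t : ℕ) (F : (V → ℝ) → ℝ) (v : V → ℝ) : ℝ :=
  (∑ s : Fin t → G.edgeSet, F (run v (List.ofFn fun i => (s i : Sym2 V)))) /
    (Fintype.card G.edgeSet : ℝ) ^ t

lemma expDist_eq (G : SimpleGraph V) (t : ℕ) (v : V → ℝ) :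
    expDist G t v = Ex G t (fun w => ∑ x, |w x - mean v|) v := rfl

lemma Ex_zero (G : SimpleGraph V) (F : (V → ℝ) → ℝ) (v : V → ℝ) : Ex G 0 F v = F v := by
  simp [Ex, run]

lemma Ex_succ (G : SimpleGraph V) (t : ℕ) (F : (V → ℝ) → ℝ) (v : V → ℝ) :
    Ex G (t + 1) F v =
      (∑ e : G.edgeSet, Ex G t F (avgStep (e : Sym2 V) v)) / (Fintype.card G.edgeSet : ℝ) := by
  unfold Ex
  rw [← Finset.sum_div, div_div, ← pow_succ]
  congr 1
  rw [← (Fin.consEquiv (fun _ : Fin (t + 1) => (G.edgeSet : Type _))).sum_comp,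
    Fintype.sum_prod_type]
  refine Finset.sum_congr rfl fun e _ => Finset.sum_congr rfl fun s _ => ?_
  simp [List.ofFn_succ, run, Fin.consEquiv]

/-- The edge sum as a double sum over adjacent ordered pairs. -/
lemma sum_edge (G : SimpleGraph V) (φ : Sym2 V → ℝ) :
    ∑ e : G.edgeSet, φ e = (∑ i, ∑ j, if G.Adj i j then φ s(i, j) else 0) / 2 := by
  have h1 : ∑ e : G.edgeSet, φ e = ∑ e ∈ G.edgeFinset, φ e := by
    rw [← Finset.sum_coe_sort G.edgeFinset (fun e => φ e)]
    refine Fintype.sum_equiv (Equiv.subtypeEquivRight fun e => ?_) _ _ fun e => rfl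
    simp
  rw [h1, eq_div_iff (by norm_num : (2 : ℝ) ≠ 0)]
  have h2 : (∑ i, ∑ j, if G.Adj i j then φ s(i, j) else 0) =
      ∑ p ∈ (univ : Finset (V × V)).filter (fun p => G.Adj p.1 p.2), φ s(p.1, p.2) := by
    rw [Finset.sum_filter, ← Finset.univ_product_univ, Finset.sum_product]
  have h3 : ∑ p ∈ (univ : Finset (V × V)).filter (fun p => G.Adj p.1 p.2), φ s(p.1, p.2) =
      ∑ e ∈ G.edgeFinset, ∑ p ∈ ((univ : Finset (V × V)).filter
        (fun p => G.Adj p.1 p.2)).filter (fun p => s(p.1, p.2) = e), φ s(p.1, p.2) := by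
    rw [Finset.sum_fiberwise_of_maps_to]
    intro p hp
    simpa using hp
  rw [h2, h3, Finset.sum_mul]
  refine Finset.sum_congr rfl fun e he => ?_
  induction e with
  | h a b =>
    have hab : G.Adj a b := by simpa using he
    have h4 : ((univ : Finset (V × V)).filter (fun p => G.Adj p.1 p.2)).filter
        (fun p => s(p.1, p.2) = s(a, b)) = {(a, b), (b, a)} := by
      ext ⟨x, y⟩
      simp only [mem_filter, mem_univ, true_and, mem_insert, mem_singleton, Prod.mk.injEq,
        Sym2.eq_iff]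
      constructor
      · rintro ⟨-, h⟩; exact h
      · rintro (⟨rfl, rfl⟩ | ⟨rfl, rfl⟩)
        · exact ⟨hab, Or.inl ⟨rfl, rfl⟩⟩
        · exact ⟨hab.symm, Or.inr ⟨rfl, rfl⟩⟩
    rw [h4, Finset.sum_pair]
    · rw [Sym2.eq_swap (a := b)]; ring
    · intro h
      rw [Prod.mk.injEq] at h
      exact hab.ne h.1

lemma sum_avgStep {i j : V} (hij : i ≠ j) (g : V → ℝ → ℝ) (v : V → ℝ) :
    ∑ x, g x (avgStep s(i, j) v x) = ∑ x, g x (v x) +
      (g i ((v i + v j) / 2) - g i (v i)) + (g j ((v i + v j) / 2) - g j (v j)) := by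
  have h : ∀ x, g x (avgStep s(i, j) v x) = g x (v x) +
      (if x = i then g i ((v i + v j) / 2) - g i (v i) else 0) +
      (if x = j then g j ((v i + v j) / 2) - g j (v j) else 0) := by
    intro x
    unfold avgStep
    by_cases hi : x = i
    · subst hi
      simp [hij]
    · by_cases hj : x = j
      · subst hj
        simp [hi]
      · simp [hi, hj]
  rw [Finset.sum_congr rfl fun x _ => h x, Finset.sum_add_distrib, Finset.sum_add_distrib]
  simp

/-- The Dirichlet form of `G`, as a sum over edges. -/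
noncomputable def dir (G : SimpleGraph V) (f : V → ℝ) : ℝ :=
  (∑ i, ∑ j, if G.Adj i j then (f i - f j) ^ 2 else 0) / 2

/-- The squared increment along an edge. -/
noncomputable def inc (f : V → ℝ) (e : Sym2 V) : ℝ :=
  Sym2.lift ⟨fun i j => (f i - f j) ^ 2, fun i j => by ring⟩ e

lemma sum_inc (G : SimpleGraph V) (f : V → ℝ) : ∑ e : G.edgeSet, inc f e = dir G f := by
  rw [sum_edge]; rfl

lemma sum_avgStep_eq (G : SimpleGraph V) (e : G.edgeSet) (v : V → ℝ) :
    ∑ x, avgStep (e : Sym2 V) v x = ∑ x, v x := by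
  obtain ⟨e, he⟩ := e
  induction e with
  | h i j =>
    have hij : i ≠ j := G.ne_of_adj he
    have := sum_avgStep hij (fun _ y => y) v
    simp only at this ⊢
    rw [this]; ring

lemma sum_avgStep_sq (G : SimpleGraph V) (e : G.edgeSet) (v : V → ℝ) (c : ℝ) :
    ∑ x, (avgStep (e : Sym2 V) v x - c) ^ 2 = ∑ x, (v x - c) ^ 2 - inc v e / 2 := by
  obtain ⟨e, he⟩ := e
  induction e with
  | h i j =>
    have hij : i ≠ j := G.ne_of_adj he
    have := sum_avgStep hij (fun _ y => (y - c) ^ 2) v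
    simp only at this ⊢
    rw [this, inc, Sym2.lift_mk]; ring

omit [Fintype V] in
lemma avgStep_nonneg (e : Sym2 V) {v : V → ℝ} (hv : ∀ x, 0 ≤ v x) (x : V) :
    0 ≤ avgStep e v x := by
  induction e with
  | h i j =>
    unfold avgStep
    split_ifs
    · rw [Sym2.lift_mk]
      have := hv i; have := hv j
      positivity
    · exact hv x

lemma mean_avgStep (G : SimpleGraph V) (e : G.edgeSet) (v : V → ℝ) :
    mean (avgStep (e : Sym2 V) v) = mean v := by
  rw [mean, mean, sum_avgStep_eq]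

lemma Ex_nonneg (G : SimpleGraph V) (t : ℕ) {F : (V → ℝ) → ℝ} (hF : ∀ w, 0 ≤ F w) (v : V → ℝ) :
    0 ≤ Ex G t F v :=
  div_nonneg (Finset.sum_nonneg fun _ _ => hF _) (by positivity)

lemma Ex_const (G : SimpleGraph V) (hE : 0 < Fintype.card G.edgeSet) (t : ℕ) (c : ℝ) (v : V → ℝ) :
    Ex G t (fun _ => c) v = c := by
  unfold Ex
  have : (Fintype.card G.edgeSet : ℝ) ^ t ≠ 0 := by positivity
  simp only [Finset.sum_const, Finset.card_univ, nsmul_eq_mul, Fintype.card_fun, Fintype.card_fin]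
  push_cast
  field_simp

lemma Ex_add (G : SimpleGraph V) (t : ℕ) (F F' : (V → ℝ) → ℝ) (v : V → ℝ) :
    Ex G t (fun w => F w + F' w) v = Ex G t F v + Ex G t F' v := by
  unfold Ex
  rw [Finset.sum_add_distrib, add_div]

lemma Ex_mul (G : SimpleGraph V) (t : ℕ) (c : ℝ) (F : (V → ℝ) → ℝ) (v : V → ℝ) :
    Ex G t (fun w => c * F w) v = c * Ex G t F v := by
  unfold Ex
  rw [← Finset.mul_sum, mul_div_assoc]

/-- Monotonicity of the expectation along an invariant set of states. -/
lemma Ex_mono (G : SimpleGraph V) (S : (V → ℝ) → Prop)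
    (hS : ∀ (e : G.edgeSet) v, S v → S (avgStep (e : Sym2 V) v))
    {F F' : (V → ℝ) → ℝ} (hF : ∀ w, S w → F w ≤ F' w) (t : ℕ) :
    ∀ v, S v → Ex G t F v ≤ Ex G t F' v := by
  induction t with
  | zero => intro v hv; rw [Ex_zero, Ex_zero]; exact hF v hv
  | succ t ih =>
    intro v hv
    rw [Ex_succ, Ex_succ]
    exact div_le_div_of_nonneg_right (Finset.sum_le_sum fun e _ => ih _ (hS e v hv))
      (by positivity)

lemma Ex_drift (G : SimpleGraph V) (S : (V → ℝ) → Prop)
    (hS : ∀ (e : G.edgeSet) v, S v → S (avgStep (e : Sym2 V) v))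
    (hE : 0 < Fintype.card G.edgeSet)
    {F : (V → ℝ) → ℝ} (δ : ℝ) (hF : ∀ v, S v → Ex G 1 F v ≤ F v + δ) (t : ℕ) :
    ∀ v, S v → Ex G t F v ≤ F v + t * δ := by
  induction t with
  | zero => intro v _; rw [Ex_zero]; simp
  | succ t ih =>
    intro v hv
    have h1 := hF v hv
    rw [Ex_succ] at h1 ⊢
    have hE' : (0 : ℝ) < Fintype.card G.edgeSet := by exact_mod_cast hE
    rw [div_le_iff₀ hE'] at h1 ⊢
    have h2 : ∑ e : G.edgeSet, Ex G t F (avgStep (e : Sym2 V) v) ≤
        ∑ e : G.edgeSet, (Ex G 0 F (avgStep (e : Sym2 V) v) + t * δ) :=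
      Finset.sum_le_sum fun e _ => by rw [Ex_zero]; exact ih _ (hS e v hv)
    rw [Finset.sum_add_distrib] at h2
    simp only [Finset.sum_const, Finset.card_univ, nsmul_eq_mul] at h2
    push_cast
    linarith

lemma Ex_contract (G : SimpleGraph V) (hE : 0 < Fintype.card G.edgeSet)
    {F : (V → ℝ) → ℝ} (ρ : ℝ) (hρ : 0 ≤ ρ) (hF : ∀ v, Ex G 1 F v ≤ ρ * F v) (t : ℕ) :
    ∀ v, Ex G t F v ≤ ρ ^ t * F v := by
  induction t with
  | zero => intro v; rw [Ex_zero]; simp
  | succ t ih =>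
    intro v
    have h1 := hF v
    rw [Ex_succ] at h1 ⊢
    have hE' : (0 : ℝ) < Fintype.card G.edgeSet := by exact_mod_cast hE
    rw [div_le_iff₀ hE'] at h1 ⊢
    have h2 : ∑ e : G.edgeSet, Ex G t F (avgStep (e : Sym2 V) v) ≤
        ∑ e : G.edgeSet, (ρ ^ t * Ex G 0 F (avgStep (e : Sym2 V) v)) :=
      Finset.sum_le_sum fun e _ => by rw [Ex_zero]; exact ih _
    rw [← Finset.mul_sum] at h2
    have h3 := mul_le_mul_of_nonneg_left h1 (pow_nonneg hρ t)
    rw [pow_succ]
    linarith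

/-- The set of `t` in the definition of the mixing time is nonempty, given a Poincaré inequality. -/
lemma exists_mixed [Nonempty V] (G : SimpleGraph V) (hE : 0 < Fintype.card G.edgeSet) (C : ℝ)
    (hC : 0 < C) (hP : ∀ v : V → ℝ, ∑ x, (v x - mean v) ^ 2 ≤ C * dir G v) (ε : ℝ) (hε : 0 < ε) :
    ∃ t : ℕ, ∀ v : V → ℝ, (∑ x, |v x|) = 1 → expDist G t v ≤ ε := by
  have hE' : (0 : ℝ) < Fintype.card G.edgeSet := by exact_mod_cast hE
  set n : ℝ := (Fintype.card V : ℝ) with hn
  have hn0 : 0 < n := by rw [hn]; exact_mod_cast Fintype.card_pos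
  set E : ℝ := (Fintype.card G.edgeSet : ℝ) with hEdef
  -- enlarge C so that the contraction factor is nonnegative
  set C' : ℝ := max C 1 with hC'
  have hC'1 : 1 ≤ C' := le_max_right _ _
  have hC'0 : 0 < C' := lt_of_lt_of_le one_pos hC'1
  have hdir : ∀ v : V → ℝ, 0 ≤ dir G v := fun v => by
    unfold dir
    refine div_nonneg (Finset.sum_nonneg fun i _ => Finset.sum_nonneg fun j _ => ?_) (by norm_num)
    split_ifs <;> positivity
  have hP' : ∀ v : V → ℝ, ∑ x, (v x - mean v) ^ 2 ≤ C' * dir G v := fun v =>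
    (hP v).trans (mul_le_mul_of_nonneg_right (le_max_left _ _) (hdir v))
  set ρ : ℝ := 1 - 1 / (2 * E * C') with hρ
  have hE1 : 1 ≤ E := by rw [hEdef]; exact_mod_cast hE
  have hq : 0 < 1 / (2 * E * C') := by positivity
  have hq1 : 1 / (2 * E * C') < 1 := by
    rw [div_lt_one (by positivity)]
    nlinarith
  have hρ0 : 0 ≤ ρ := by rw [hρ]; linarith
  have hρ1 : ρ < 1 := by rw [hρ]; linarith
  -- the quadratic functional, with the centring constant `c`
  have hstep : ∀ v : V → ℝ, Ex G 1 (fun w => ∑ x, (w x - mean w) ^ 2) v ≤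
      ρ * ∑ x, (v x - mean v) ^ 2 := by
    intro v
    rw [Ex_succ]
    simp only [Ex_zero]
    rw [div_le_iff₀ hE']
    have h1 : ∀ e : G.edgeSet, ∑ x, (avgStep (e : Sym2 V) v x - mean (avgStep (e : Sym2 V) v)) ^ 2
        = ∑ x, (v x - mean v) ^ 2 - inc v e / 2 := by
      intro e
      rw [mean_avgStep, sum_avgStep_sq]
    rw [Finset.sum_congr rfl fun e _ => h1 e, Finset.sum_sub_distrib, ← Finset.sum_div, sum_inc]
    simp only [Finset.sum_const, Finset.card_univ, nsmul_eq_mul]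
    have h2 := hP' v
    rw [hρ]
    have h3 : (1 - 1 / (2 * E * C')) * (∑ x, (v x - mean v) ^ 2) * E =
        E * ∑ x, (v x - mean v) ^ 2 - (∑ x, (v x - mean v) ^ 2) / (2 * C') := by
      field_simp
    rw [h3]
    have h4 : (∑ x, (v x - mean v) ^ 2) / (2 * C') ≤ dir G v / 2 := by
      rw [div_le_div_iff₀ (by positivity) (by norm_num)]
      nlinarith
    linarith
  have hall := Ex_contract G hE ρ hρ0 hstep
  -- choose the parameters
  set δ : ℝ := ε / n with hδ
  have hδ0 : 0 < δ := by positivity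
  obtain ⟨t, ht⟩ := exists_pow_lt_of_lt_one (show 0 < ε * δ by positivity) hρ1
  refine ⟨t, fun v hv => ?_⟩
  have hbound : ∀ w : V → ℝ, (∑ x, |w x - mean v|) ≤
      n * δ / 2 + (1 / (2 * δ)) * ∑ x, (w x - mean v) ^ 2 := by
    intro w
    have h1 : ∀ x, |w x - mean v| ≤ δ / 2 + (1 / (2 * δ)) * (w x - mean v) ^ 2 := by
      intro x
      have h2 : 0 ≤ (|w x - mean v| - δ) ^ 2 := sq_nonneg _
      have h3 : |w x - mean v| ^ 2 = (w x - mean v) ^ 2 := sq_abs _
      have h4 : δ / 2 + (1 / (2 * δ)) * (w x - mean v) ^ 2 - |w x - mean v| =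
          (|w x - mean v| - δ) ^ 2 / (2 * δ) := by
        rw [← h3]; field_simp; ring
      have h5 : 0 ≤ (|w x - mean v| - δ) ^ 2 / (2 * δ) := by positivity
      linarith
    calc (∑ x, |w x - mean v|) ≤ ∑ x, (δ / 2 + (1 / (2 * δ)) * (w x - mean v) ^ 2) :=
          Finset.sum_le_sum fun x _ => h1 x
      _ = n * δ / 2 + (1 / (2 * δ)) * ∑ x, (w x - mean v) ^ 2 := by
          rw [Finset.sum_add_distrib, ← Finset.mul_sum]
          simp only [Finset.sum_const, Finset.card_univ, nsmul_eq_mul]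
          ring
  have hS : ∀ (e : G.edgeSet) w, mean w = mean v → mean (avgStep (e : Sym2 V) w) = mean v :=
    fun e w hw => by rw [mean_avgStep, hw]
  have h5 : expDist G t v ≤ Ex G t (fun w => n * δ / 2 +
      (1 / (2 * δ)) * ∑ x, (w x - mean w) ^ 2) v := by
    rw [expDist_eq]
    refine Ex_mono G (fun w => mean w = mean v) hS (fun w hw => ?_) t v rfl
    have h := hbound w
    rw [← hw] at h
    exact hw ▸ h
  rw [Ex_add, Ex_const G hE, Ex_mul] at h5
  have h6 := hall t v
  have h7 : ∑ x, (v x - mean v) ^ 2 ≤ 1 := by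
    have h8 : ∑ x, (v x - mean v) ^ 2 = ∑ x, (v x) ^ 2 - n * (mean v) ^ 2 := by
      have h9 : ∑ x, v x = n * mean v := by
        rw [mean, hn]; field_simp
      have h10 : ∀ x, (v x - mean v) ^ 2 = (v x) ^ 2 - 2 * mean v * v x + mean v ^ 2 := by
        intro x; ring
      rw [Finset.sum_congr rfl fun x _ => h10 x, Finset.sum_add_distrib, Finset.sum_sub_distrib,
        ← Finset.mul_sum, h9]
      simp only [Finset.sum_const, Finset.card_univ, nsmul_eq_mul]
      ring
    have h11 : ∑ x, (v x) ^ 2 ≤ ∑ x, |v x| := by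
      refine Finset.sum_le_sum fun x _ => ?_
      have h12 : |v x| ≤ 1 := by
        rw [← hv]
        exact Finset.single_le_sum (f := fun x => |v x|) (fun y _ => abs_nonneg _)
          (Finset.mem_univ x)
      rw [← sq_abs]
      nlinarith [abs_nonneg (v x)]
    have h13 : 0 ≤ n * mean v ^ 2 := by positivity
    linarith
  have h14 : Ex G t (fun w => ∑ x, (w x - mean w) ^ 2) v ≤ ε * δ := by
    calc _ ≤ ρ ^ t * ∑ x, (v x - mean v) ^ 2 := h6
      _ ≤ ρ ^ t * 1 := mul_le_mul_of_nonneg_left h7 (pow_nonneg hρ0 t)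
      _ ≤ ε * δ := by rw [mul_one]; exact ht.le
  have h15 : (1 / (2 * δ)) * Ex G t (fun w => ∑ x, (w x - mean w) ^ 2) v ≤ ε / 2 := by
    calc _ ≤ (1 / (2 * δ)) * (ε * δ) := mul_le_mul_of_nonneg_left h14 (by positivity)
      _ = ε / 2 := by field_simp
  have h16 : n * δ / 2 = ε / 2 := by rw [hδ]; field_simp
  linarith

/-- Lower bound for the expected `L^1` distance from the speed of the associated random walk. -/
lemma expDist_lower (G : SimpleGraph V) (hE : 0 < Fintype.card G.edgeSet)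
    (w : V → ℝ) (hw : ∀ x, 0 ≤ w x) (D : ℝ)
    (hD : ∀ i, (∑ j, if G.Adj i j then w j - w i else 0) ≤ D)
    (A : Finset V) (m : ℝ) (hm : 0 < m) (hA : ∀ x, x ∉ A → m ≤ w x)
    (r : V) (hr : w r = 0) (t : ℕ) :
    2 - 2 * (A.card : ℝ) / (Fintype.card V : ℝ) -
      2 * (t * (D / (2 * Fintype.card G.edgeSet))) / m ≤
      expDist G t (fun x => if x = r then 1 else 0) := by
  have hE' : (0 : ℝ) < Fintype.card G.edgeSet := by exact_mod_cast hE
  have : Nonempty V := ⟨r⟩
  set n : ℝ := (Fintype.card V : ℝ) with hn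
  have hn0 : 0 < n := by rw [hn]; exact_mod_cast Fintype.card_pos
  set v0 : V → ℝ := fun x => if x = r then 1 else 0 with hv0
  have hmean : mean v0 = 1 / n := by
    rw [mean, hv0]; simp [hn]
  -- invariant set
  set S : (V → ℝ) → Prop := fun v => (∀ x, 0 ≤ v x) ∧ ∑ x, v x = 1 with hS
  have hSinv : ∀ (e : G.edgeSet) v, S v → S (avgStep (e : Sym2 V) v) := by
    rintro e v ⟨h1, h2⟩
    exact ⟨avgStep_nonneg _ h1, by rw [sum_avgStep_eq, h2]⟩
  have hSv0 : S v0 := by
    refine ⟨fun x => ?_, by simp [hv0]⟩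
    simp only [hv0]
    split_ifs <;> norm_num
  -- drift
  have hdrift : ∀ v, S v → Ex G 1 (fun u => ∑ x, w x * u x) v ≤
      (∑ x, w x * v x) + D / (2 * Fintype.card G.edgeSet) := by
    rintro v ⟨h1, h2⟩
    rw [Ex_succ]
    simp only [Ex_zero]
    rw [div_le_iff₀ hE']
    set ψ : Sym2 V → ℝ := fun e =>
      Sym2.lift ⟨fun i j => (w i - w j) * (v j - v i) / 2, fun i j => by ring⟩ e with hψ
    have h3 : ∀ e : G.edgeSet, ∑ x, w x * avgStep (e : Sym2 V) v x =
        ∑ x, w x * v x + ψ e := by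
      intro e
      obtain ⟨e, he⟩ := e
      induction e with
      | h i j =>
        have hij : i ≠ j := G.ne_of_adj he
        have := sum_avgStep hij (fun x y => w x * y) v
        simp only at this ⊢
        rw [this, hψ]
        simp only [Sym2.lift_mk]
        ring
    rw [Finset.sum_congr rfl fun e _ => h3 e, Finset.sum_add_distrib, sum_edge]
    simp only [Finset.sum_const, Finset.card_univ, nsmul_eq_mul, hψ, Sym2.lift_mk]
    have h4 : (∑ i, ∑ j, if G.Adj i j then (w i - w j) * (v j - v i) / 2 else 0) =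
        ∑ i, v i * ∑ j, (if G.Adj i j then w j - w i else 0) := by
      have h5 : (∑ i, ∑ j, if G.Adj i j then (w i - w j) * (v j - v i) / 2 else 0) =
          (∑ i, ∑ j, if G.Adj i j then (w j - w i) * v i / 2 else 0) +
          ∑ i, ∑ j, if G.Adj i j then (w i - w j) * v j / 2 else 0 := by
        rw [← Finset.sum_add_distrib]
        refine Finset.sum_congr rfl fun i _ => ?_
        rw [← Finset.sum_add_distrib]
        refine Finset.sum_congr rfl fun j _ => ?_
        split_ifs <;> ring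
      have h6 : (∑ i, ∑ j, if G.Adj i j then (w i - w j) * v j / 2 else 0) =
          ∑ i, ∑ j, if G.Adj i j then (w j - w i) * v i / 2 else 0 := by
        rw [Finset.sum_comm]
        refine Finset.sum_congr rfl fun i _ => Finset.sum_congr rfl fun j _ => ?_
        simp only [G.adj_comm j i]
      rw [h5, h6, ← Finset.sum_add_distrib]
      refine Finset.sum_congr rfl fun i _ => ?_
      rw [← Finset.sum_add_distrib, Finset.mul_sum]
      refine Finset.sum_congr rfl fun j _ => ?_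
      split_ifs <;> ring
    rw [h4]
    have h7 : ∑ i, v i * ∑ j, (if G.Adj i j then w j - w i else 0) ≤ D := by
      calc _ ≤ ∑ i, v i * D := Finset.sum_le_sum fun i _ =>
            mul_le_mul_of_nonneg_left (hD i) (h1 i)
        _ = D := by rw [← Finset.sum_mul, h2, one_mul]
    have h8 : (∑ x, w x * v x + D / (2 * (Fintype.card G.edgeSet : ℝ))) *
        (Fintype.card G.edgeSet : ℝ) = (Fintype.card G.edgeSet : ℝ) * ∑ x, w x * v x + D / 2 := by
      field_simp
    rw [h8]
    linarith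
  have hEx := Ex_drift G S hSinv hE _ hdrift t v0 hSv0
  have h0 : ∑ x, w x * v0 x = 0 := by
    simp [hv0, hr]
  rw [h0, zero_add] at hEx
  -- pointwise lower bound on the L1 distance
  have hpt : ∀ u, S u → 2 - 2 * (A.card : ℝ) / n + (-(2 / m)) * ∑ x, w x * u x ≤
      ∑ x, |u x - mean v0| := by
    rintro u ⟨h1, h2⟩
    rw [hmean]
    have h3 : ∑ x, |u x - 1 / n| = ∑ x ∈ A, |u x - 1 / n| + ∑ x ∈ Aᶜ, |u x - 1 / n| :=
      (Finset.sum_add_sum_compl A _).symm
    have h4 : ∑ x ∈ A, (u x - 1 / n) ≤ ∑ x ∈ A, |u x - 1 / n| :=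
      Finset.sum_le_sum fun x _ => le_abs_self _
    have h5 : ∑ x ∈ Aᶜ, (1 / n - u x) ≤ ∑ x ∈ Aᶜ, |u x - 1 / n| :=
      Finset.sum_le_sum fun x _ => by rw [abs_sub_comm]; exact le_abs_self _
    rw [Finset.sum_sub_distrib] at h4 h5
    simp only [Finset.sum_const, nsmul_eq_mul] at h4 h5
    have h6 : ∑ x ∈ A, u x + ∑ x ∈ Aᶜ, u x = 1 := by rw [Finset.sum_add_sum_compl, h2]
    have h7 : (A.card : ℝ) + (Aᶜ.card : ℝ) = n := by
      rw [hn, ← Finset.card_add_card_compl A]; push_cast; ring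
    have h8 : m * ∑ x ∈ Aᶜ, u x ≤ ∑ x, w x * u x := by
      calc m * ∑ x ∈ Aᶜ, u x = ∑ x ∈ Aᶜ, m * u x := Finset.mul_sum _ _ _
        _ ≤ ∑ x ∈ Aᶜ, w x * u x := Finset.sum_le_sum fun x hx =>
            mul_le_mul_of_nonneg_right (hA x (Finset.mem_compl.1 hx)) (h1 x)
        _ ≤ ∑ x, w x * u x := Finset.sum_le_sum_of_subset_of_nonneg (Finset.subset_univ _)
            fun x _ _ => mul_nonneg (hw x) (h1 x)
    have h9 : ∑ x ∈ Aᶜ, u x ≤ (1 / m) * ∑ x, w x * u x := by
      rw [one_div, inv_mul_eq_div, le_div_iff₀ hm, mul_comm]; exact h8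
    have h10 : (Aᶜ.card : ℝ) * (1 / n) = 1 - (A.card : ℝ) / n := by
      rw [← h7]
      have : (A.card : ℝ) + (Aᶜ.card : ℝ) ≠ 0 := by rw [h7]; exact hn0.ne'
      field_simp
      ring
    have h11 : 2 - 2 * (A.card : ℝ) / n + (-(2 / m)) * ∑ x, w x * u x =
        2 - 2 * ((A.card : ℝ) / n) - 2 * ((1 / m) * ∑ x, w x * u x) := by ring
    rw [h11, h3]
    have h12 : (A.card : ℝ) * (1 / n) = (A.card : ℝ) / n := by ring
    rw [h12] at h4
    rw [h10] at h5
    linarith
  have h13 := Ex_mono G S hSinv hpt t v0 hSv0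
  rw [← expDist_eq, Ex_add, Ex_const G hE, Ex_mul] at h13
  refine le_trans ?_ h13
  have h14 : 2 / m * Ex G t (fun u => ∑ x, w x * u x) v0 ≤
      2 / m * (t * (D / (2 * Fintype.card G.edgeSet))) :=
    mul_le_mul_of_nonneg_left hEx (by positivity)
  have h15 : 2 * (t * (D / (2 * (Fintype.card G.edgeSet : ℝ)))) / m =
      2 / m * (t * (D / (2 * Fintype.card G.edgeSet))) := by ring
  rw [h15]
  linarith

end Pool.Agent.helper95.Avg
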