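import Pool.Agent.helper95.AvgLemmas

/-!
A Poincaré inequality bounds the second smallest Laplacian eigenvalue from below.
-/

namespace Pool.Agent.helper95.Avg

open Finset Matrix
open scoped Classical

variable {V : Type*} [Fintype V]

lemma dir_eq (G : SimpleGraph V) (f : V → ℝ) :
    dir G f = f ⬝ᵥ (G.lapMatrix ℝ *ᵥ f) := by
  rw [← toLinearMap₂'_apply', SimpleGraph.lapMatrix_toLinearMap₂']
  rfl

lemma exists_comb (s t : ℝ) : ∃ α β : ℝ, α * s + β * t = 0 ∧ 0 < α ^ 2 + β ^ 2 := by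
  by_cases h : s = 0 ∧ t = 0
  · exact ⟨1, 0, by rw [h.1, h.2]; ring, by norm_num⟩
  · refine ⟨t, -s, by ring, ?_⟩
    by_cases hs : s = 0
    · have ht : t ≠ 0 := fun ht => h ⟨hs, ht⟩
      positivity
    · have : 0 < s ^ 2 := by positivity
      nlinarith [sq_nonneg t]

lemma le_lambda2 (G : SimpleGraph V) (h2 : 2 ≤ Fintype.card V) (C : ℝ) (hC : 0 < C)
    (hP : ∀ v : V → ℝ, ∑ x, (v x - mean v) ^ 2 ≤ C * dir G v) : 1 / C ≤ lambda2 G := by
  unfold lambda2
  rw [dif_pos h2]
  set hA := G.isHermitian_lapMatrix ℝ with hAdef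
  set e : Fin (Fintype.card V) ≃ V := Fintype.equivOfCardEq (Fintype.card_fin _) with he
  set ia : Fin (Fintype.card V) := ⟨Fintype.card V - 2, by omega⟩ with hia
  set ib : Fin (Fintype.card V) := ⟨Fintype.card V - 1, by omega⟩ with hib
  have hab : e ia ≠ e ib := by
    intro h
    have := congrArg Fin.val (e.injective h)
    simp only [hia, hib] at this
    omega
  have hla : hA.eigenvalues (e ia) = hA.eigenvalues₀ ia := by
    unfold Matrix.IsHermitian.eigenvalues
    rw [← he, Equiv.symm_apply_apply]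
  have hlb : hA.eigenvalues (e ib) = hA.eigenvalues₀ ib := by
    unfold Matrix.IsHermitian.eigenvalues
    rw [← he, Equiv.symm_apply_apply]
  have hle : hA.eigenvalues (e ib) ≤ hA.eigenvalues (e ia) := by
    rw [hla, hlb]
    refine hA.eigenvalues₀_antitone ?_
    rw [Fin.le_def]
    simp only [hia, hib]
    omega
  rw [← hla]
  set la := hA.eigenvalues (e ia)
  set lb := hA.eigenvalues (e ib)
  set u : V → ℝ := ⇑(hA.eigenvectorBasis (e ia)) with hu
  set w : V → ℝ := ⇑(hA.eigenvectorBasis (e ib)) with hw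
  have hLu : G.lapMatrix ℝ *ᵥ u = la • u := hA.mulVec_eigenvectorBasis (e ia)
  have hLw : G.lapMatrix ℝ *ᵥ w = lb • w := hA.mulVec_eigenvectorBasis (e ib)
  have hon := hA.eigenvectorBasis.orthonormal
  have hinner : ∀ i j : V, inner ℝ (hA.eigenvectorBasis i) (hA.eigenvectorBasis j) =
      ∑ x, (hA.eigenvectorBasis i) x * (hA.eigenvectorBasis j) x := by
    intro i j
    rw [PiLp.inner_apply]
    refine Finset.sum_congr rfl fun x _ => ?_
    simp [mul_comm]
  have huu : ∑ x, u x * u x = 1 := by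
    rw [hu, ← hinner, real_inner_self_eq_norm_sq, hon.1]; norm_num
  have hww : ∑ x, w x * w x = 1 := by
    rw [hw, ← hinner, real_inner_self_eq_norm_sq, hon.1]; norm_num
  have huw : ∑ x, u x * w x = 0 := by
    rw [hu, hw, ← hinner]
    exact hon.2 hab
  obtain ⟨α, β, h0, hpos⟩ := exists_comb (∑ x, u x) (∑ x, w x)
  set f : V → ℝ := fun x => α * u x + β * w x with hf
  have hmean : mean f = 0 := by
    rw [mean, hf]
    rw [Finset.sum_add_distrib, ← Finset.mul_sum, ← Finset.mul_sum, h0, zero_div]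
  have hff : ∑ x, f x ^ 2 = α ^ 2 + β ^ 2 := by
    have h1 : ∀ x, f x ^ 2 = α ^ 2 * (u x * u x) + 2 * α * β * (u x * w x) +
        β ^ 2 * (w x * w x) := by
      intro x; rw [hf]; ring
    rw [Finset.sum_congr rfl fun x _ => h1 x, Finset.sum_add_distrib, Finset.sum_add_distrib,
      ← Finset.mul_sum, ← Finset.mul_sum, ← Finset.mul_sum, huu, hww, huw]
    ring
  have hLf : G.lapMatrix ℝ *ᵥ f = fun x => α * (la * u x) + β * (lb * w x) := by
    have h1 : f = α • u + β • w := by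
      ext x; simp [hf]
    rw [h1, Matrix.mulVec_add, Matrix.mulVec_smul, Matrix.mulVec_smul, hLu, hLw]
    ext x
    simp
  have hdir : dir G f = α ^ 2 * la + β ^ 2 * lb := by
    rw [dir_eq, hLf, dotProduct]
    have h1 : ∀ x, f x * (α * (la * u x) + β * (lb * w x)) = α ^ 2 * la * (u x * u x) +
        (α * β * la + α * β * lb) * (u x * w x) + β ^ 2 * lb * (w x * w x) := by
      intro x; rw [hf]; ring
    rw [Finset.sum_congr rfl fun x _ => h1 x, Finset.sum_add_distrib, Finset.sum_add_distrib,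
      ← Finset.mul_sum, ← Finset.mul_sum, ← Finset.mul_sum, huu, hww, huw]
    ring
  have h1 := hP f
  rw [hmean, hdir] at h1
  simp only [sub_zero] at h1
  rw [hff] at h1
  have h3 : α ^ 2 * la + β ^ 2 * lb ≤ (α ^ 2 + β ^ 2) * la := by
    nlinarith [mul_le_mul_of_nonneg_left hle (sq_nonneg β)]
  have h4 : (α ^ 2 + β ^ 2) * 1 ≤ (α ^ 2 + β ^ 2) * (C * la) := by
    calc (α ^ 2 + β ^ 2) * 1 ≤ C * (α ^ 2 * la + β ^ 2 * lb) := by rw [mul_one]; exact h1
      _ ≤ C * ((α ^ 2 + β ^ 2) * la) := mul_le_mul_of_nonneg_left h3 hC.le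
      _ = (α ^ 2 + β ^ 2) * (C * la) := by ring
  have h5 : 1 ≤ C * la := le_of_mul_le_mul_left h4 hpos
  rw [div_le_iff₀ hC, mul_comm]
  exact h5

end Pool.Agent.helper95.Avg
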