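import Pool.Agent.helper95.AvgSpectral

/-!
The counterexample graph: a complete binary tree of depth `k` (root `1`, the children of `i` are
`2 i` and `2 i + 1`) whose leaves `2 ^ k, ..., 2 ^ (k + 1) - 1`, together with the extra vertex `0`,
form a clique.
-/

namespace Pool.Agent.helper95.Avg

open Finset
open scoped Classical

/-- Membership in the clique. -/
def clq (K x : ℕ) : Prop := x = 0 ∨ K ≤ x

/-- Adjacency as a relation on natural numbers. -/
def tadj (K x y : ℕ) : Prop :=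
  x ≠ y ∧ ((clq K x ∧ clq K y) ∨ (x ≠ 0 ∧ y ≠ 0 ∧ (x = y / 2 ∨ y = x / 2)))

/-- The tree with a clique on its leaves. -/
def treeClique (k : ℕ) : SimpleGraph (Fin (2 * 2 ^ k)) where
  Adj x y := tadj (2 ^ k) x y
  symm := ⟨by
    rintro x y ⟨h1, h2⟩
    refine ⟨h1.symm, ?_⟩
    rcases h2 with ⟨h3, h4⟩ | ⟨h3, h4, h5⟩
    · exact Or.inl ⟨h4, h3⟩
    · exact Or.inr ⟨h4, h3, h5.symm⟩⟩
  loopless := ⟨by
    rintro x ⟨h1, -⟩
    exact h1 rfl⟩

lemma treeClique_adj (k : ℕ) (x y : Fin (2 * 2 ^ k)) :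
    (treeClique k).Adj x y ↔ tadj (2 ^ k) x y := Iff.rfl

lemma treeClique_connected (k : ℕ) (hk : 1 ≤ k) : (treeClique k).Connected := by
  have hK : 2 ≤ 2 ^ k := by
    calc 2 = 2 ^ 1 := by norm_num
      _ ≤ 2 ^ k := Nat.pow_le_pow_right (by norm_num) hk
  have h1lt : 1 < 2 * 2 ^ k := by omega
  have h0lt : 0 < 2 * 2 ^ k := by omega
  have hKlt : 2 ^ k < 2 * 2 ^ k := by omega
  have main : ∀ x : ℕ, ∀ hx : x < 2 * 2 ^ k, 1 ≤ x →
      (treeClique k).Reachable ⟨1, h1lt⟩ ⟨x, hx⟩ := by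
    intro x
    induction x using Nat.strong_induction_on with
    | _ x ih =>
      intro hx hx1
      by_cases hx2 : x = 1
      · subst hx2; exact SimpleGraph.Reachable.refl _
      · have h3 : (treeClique k).Reachable ⟨1, h1lt⟩ ⟨x / 2, by omega⟩ :=
          ih (x / 2) (by omega) (by omega) (by omega)
        refine h3.trans (SimpleGraph.Adj.reachable ?_)
        rw [treeClique_adj]
        refine ⟨by simp only; omega, Or.inr ⟨by simp only; omega, by simp only; omega, Or.inl rfl⟩⟩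
  refine (SimpleGraph.connected_iff_exists_forall_reachable _).2 ⟨⟨1, h1lt⟩, ?_⟩
  rintro ⟨x, hx⟩
  by_cases hx0 : x = 0
  · subst hx0
    refine (main (2 ^ k) hKlt (by omega)).trans (SimpleGraph.Adj.reachable ?_)
    rw [treeClique_adj]
    refine ⟨by simp only; omega, Or.inl ⟨Or.inr le_rfl, Or.inl rfl⟩⟩
  · exact main x hx (by omega)

lemma sum_half (h : ℕ → ℝ) (K : ℕ) :
    ∑ j ∈ Ico 2 (2 * (K + 1)), h (j / 2) = 2 * ∑ i ∈ Ico 1 (K + 1), h i := by
  induction K with
  | zero => simp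
  | succ K ih =>
    have e1 : 2 * (K + 1 + 1) = 2 * (K + 1) + 1 + 1 := by ring
    rw [e1, Finset.sum_Ico_succ_top (by omega), Finset.sum_Ico_succ_top (by omega), ih,
      Finset.sum_Ico_succ_top (by omega : 1 ≤ K + 1)]
    have e2 : 2 * (K + 1) / 2 = K + 1 := by omega
    have e3 : (2 * (K + 1) + 1) / 2 = K + 1 := by omega
    rw [e2, e3]; ring

/-- The tree energy of a function on natural numbers. -/
noncomputable def treeEn (K : ℕ) (F : ℕ → ℝ) : ℝ :=
  ∑ j ∈ Ico 2 (2 * K), (F (j / 2) - F j) ^ 2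

/-- The clique energy of a function on natural numbers. -/
noncomputable def clqEn (K : ℕ) (F : ℕ → ℝ) : ℝ :=
  (∑ i ∈ insert 0 (Ico K (2 * K)), ∑ j ∈ insert 0 (Ico K (2 * K)), (F i - F j) ^ 2) / 2

lemma tree_bound (K : ℕ) (hK : 1 ≤ K) (G : ℕ → ℝ) :
    ∑ i ∈ Ico 1 K, G i ^ 2 ≤ 3 * ∑ i ∈ Ico K (2 * K), G i ^ 2 + 6 * treeEn K G := by
  obtain ⟨K, rfl⟩ : ∃ K', K = K' + 1 := ⟨K - 1, by omega⟩
  have h1 := sum_half (fun i => G i ^ 2) K
  have h2 : ∑ j ∈ Ico 2 (2 * (K + 1)), G (j / 2) ^ 2 ≤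
      ∑ j ∈ Ico 2 (2 * (K + 1)), (3 / 2 * G j ^ 2 + 3 * (G (j / 2) - G j) ^ 2) := by
    refine Finset.sum_le_sum fun j _ => ?_
    nlinarith [sq_nonneg (G j - 2 * (G (j / 2) - G j))]
  rw [Finset.sum_add_distrib, ← Finset.mul_sum, ← Finset.mul_sum] at h2
  have h3 : ∑ j ∈ Ico 2 (2 * (K + 1)), G j ^ 2 ≤
      ∑ j ∈ Ico 1 (K + 1), G j ^ 2 + ∑ j ∈ Ico (K + 1) (2 * (K + 1)), G j ^ 2 := by
    rw [Finset.sum_Ico_consecutive _ (by omega) (by omega)]
    refine Finset.sum_le_sum_of_subset_of_nonneg ?_ fun _ _ _ => sq_nonneg _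
    exact Finset.Ico_subset_Ico_left (by omega)
  unfold treeEn
  linarith

lemma clq_bound (K : ℕ) (hK : 1 ≤ K) (F : ℕ → ℝ) :
    ∃ c : ℝ, ∑ i ∈ insert 0 (Ico K (2 * K)), (F i - c) ^ 2 ≤ clqEn K F / 2 := by
  set S := insert 0 (Ico K (2 * K)) with hS
  have hcard : (S.card : ℝ) = K + 1 := by
    rw [hS, Finset.card_insert_of_notMem (by rw [Finset.mem_Ico]; omega), Nat.card_Ico]
    have : 2 * K - K = K := by omega
    rw [this]; push_cast; ring
  have hM : (2 : ℝ) ≤ S.card := by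
    rw [hcard]
    have : (1 : ℝ) ≤ K := by exact_mod_cast hK
    linarith
  refine ⟨(∑ i ∈ S, F i) / S.card, ?_⟩
  have h1 : ∑ i ∈ S, (F i - (∑ i ∈ S, F i) / S.card) ^ 2 =
      ∑ i ∈ S, F i ^ 2 - (∑ i ∈ S, F i) ^ 2 / S.card := by
    have h2 : ∀ i ∈ S, (F i - (∑ i ∈ S, F i) / S.card) ^ 2 =
        F i ^ 2 - 2 * ((∑ i ∈ S, F i) / S.card) * F i + ((∑ i ∈ S, F i) / S.card) ^ 2 := by
      intro i _; ring
    rw [Finset.sum_congr rfl h2, Finset.sum_add_distrib, Finset.sum_sub_distrib,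
      ← Finset.mul_sum]
    simp only [Finset.sum_const, nsmul_eq_mul]
    field_simp
    ring
  have h3 : clqEn K F = S.card * ∑ i ∈ S, F i ^ 2 - (∑ i ∈ S, F i) ^ 2 := by
    unfold clqEn
    rw [← hS]
    have h4 : ∀ i ∈ S, ∑ j ∈ S, (F i - F j) ^ 2 =
        S.card * F i ^ 2 - 2 * (∑ j ∈ S, F j) * F i + ∑ j ∈ S, F j ^ 2 := by
      intro i _
      have h5 : ∀ j ∈ S, (F i - F j) ^ 2 = F i ^ 2 - 2 * F i * F j + F j ^ 2 := by
        intro j _; ring
      rw [Finset.sum_congr rfl h5, Finset.sum_add_distrib, Finset.sum_sub_distrib,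
        ← Finset.mul_sum]
      simp only [Finset.sum_const, nsmul_eq_mul]
      ring
    rw [Finset.sum_congr rfl h4, Finset.sum_add_distrib, Finset.sum_sub_distrib,
      ← Finset.mul_sum, ← Finset.mul_sum]
    simp only [Finset.sum_const, nsmul_eq_mul]
    ring
  rw [h1, h3]
  have h6 : 0 ≤ ∑ i ∈ S, F i ^ 2 - (∑ i ∈ S, F i) ^ 2 / S.card := by
    rw [← h1]; exact Finset.sum_nonneg fun _ _ => sq_nonneg _
  have h7 : (S.card : ℝ) * ∑ i ∈ S, F i ^ 2 - (∑ i ∈ S, F i) ^ 2 =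
      S.card * (∑ i ∈ S, F i ^ 2 - (∑ i ∈ S, F i) ^ 2 / S.card) := by
    field_simp
  rw [h7]
  nlinarith

lemma dir_lower (k : ℕ) (F : ℕ → ℝ) :
    clqEn (2 ^ k) F + treeEn (2 ^ k) F ≤
      dir (treeClique k) (fun x : Fin (2 * 2 ^ k) => F x) := by
  have hK : 1 ≤ 2 ^ k := Nat.one_le_two_pow
  set K := 2 ^ k with hKdef
  unfold dir
  have h1 : (∑ i : Fin (2 * K), ∑ j : Fin (2 * K),
      if (treeClique k).Adj i j then (F i - F j) ^ 2 else 0) =
      ∑ i ∈ range (2 * K), ∑ j ∈ range (2 * K), if tadj K i j then (F i - F j) ^ 2 else 0 := by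
    rw [Finset.sum_range]
    refine Finset.sum_congr rfl fun i _ => ?_
    rw [Finset.sum_range]
    refine Finset.sum_congr rfl fun j _ => ?_
    simp only [treeClique_adj, ← hKdef]
  rw [h1]
  have h2 : ∑ i ∈ range (2 * K), ∑ j ∈ range (2 * K),
      ((if i ∈ insert 0 (Ico K (2 * K)) ∧ j ∈ insert 0 (Ico K (2 * K)) then (F i - F j) ^ 2 else 0)
        + (if 2 ≤ j ∧ i = j / 2 then (F i - F j) ^ 2 else 0)
        + (if 2 ≤ i ∧ j = i / 2 then (F i - F j) ^ 2 else 0)) ≤
      ∑ i ∈ range (2 * K), ∑ j ∈ range (2 * K), if tadj K i j then (F i - F j) ^ 2 else 0 := by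
    refine Finset.sum_le_sum fun i hi => Finset.sum_le_sum fun j hj => ?_
    rw [Finset.mem_range] at hi hj
    simp only [Finset.mem_insert, Finset.mem_Ico]
    by_cases hij : i = j
    · subst hij
      simp
    · have hsq : 0 ≤ (F i - F j) ^ 2 := sq_nonneg _
      by_cases h3 : (i = 0 ∨ K ≤ i ∧ i < 2 * K) ∧ (j = 0 ∨ K ≤ j ∧ j < 2 * K)
      · have h4 : ¬ (2 ≤ j ∧ i = j / 2) := by omega
        have h5 : ¬ (2 ≤ i ∧ j = i / 2) := by omega
        have h6 : tadj K i j := ⟨hij, Or.inl ⟨by unfold clq; omega, by unfold clq; omega⟩⟩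
        rw [if_pos h3, if_neg h4, if_neg h5, if_pos h6]; simp
      · rw [if_neg h3]
        by_cases h4 : 2 ≤ j ∧ i = j / 2
        · have h5 : ¬ (2 ≤ i ∧ j = i / 2) := by omega
          have h6 : tadj K i j := ⟨hij, Or.inr ⟨by omega, by omega, by omega⟩⟩
          rw [if_pos h4, if_neg h5, if_pos h6]; simp
        · rw [if_neg h4]
          by_cases h5 : 2 ≤ i ∧ j = i / 2
          · have h6 : tadj K i j := ⟨hij, Or.inr ⟨by omega, by omega, by omega⟩⟩
            rw [if_pos h5, if_pos h6]; simp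
          · rw [if_neg h5]
            split_ifs
            · simpa using hsq
            · simp
  refine le_trans ?_ (div_le_div_of_nonneg_right h2 (by norm_num))
  simp only [Finset.sum_add_distrib]
  have hsub : insert 0 (Ico K (2 * K)) ⊆ range (2 * K) := by
    intro x hx
    rw [Finset.mem_insert, Finset.mem_Ico] at hx
    rw [Finset.mem_range]
    omega
  have hfil : (range (2 * K)).filter (fun i => i ∈ insert 0 (Ico K (2 * K))) =
      insert 0 (Ico K (2 * K)) := by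
    ext x
    rw [Finset.mem_filter]
    exact ⟨fun h => h.2, fun h => ⟨hsub h, h⟩⟩
  have e1 : ∑ i ∈ range (2 * K), ∑ j ∈ range (2 * K),
      (if i ∈ insert 0 (Ico K (2 * K)) ∧ j ∈ insert 0 (Ico K (2 * K)) then (F i - F j) ^ 2 else 0) =
      2 * clqEn K F := by
    unfold clqEn
    rw [mul_div_cancel₀ _ (by norm_num : (2 : ℝ) ≠ 0)]
    rw [← hfil, Finset.sum_filter]
    refine Finset.sum_congr rfl fun i _ => ?_
    by_cases hi : i ∈ insert 0 (Ico K (2 * K))
    · rw [hfil, if_pos hi, ← hfil, Finset.sum_filter]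
      refine Finset.sum_congr rfl fun j _ => ?_
      rw [hfil]
      simp [hi]
    · rw [hfil, if_neg hi]
      refine Finset.sum_eq_zero fun j _ => ?_
      simp [hi]
  have hIco : ∀ g : ℕ → ℝ, ∑ j ∈ range (2 * K), (if 2 ≤ j then g j else 0) =
      ∑ j ∈ Ico 2 (2 * K), g j := by
    intro g
    rw [← Finset.sum_filter]
    refine Finset.sum_congr ?_ fun _ _ => rfl
    ext x
    rw [Finset.mem_filter, Finset.mem_range, Finset.mem_Ico]
    omega
  have e3 : ∑ i ∈ range (2 * K), ∑ j ∈ range (2 * K),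
      (if 2 ≤ i ∧ j = i / 2 then (F i - F j) ^ 2 else 0) = treeEn K F := by
    unfold treeEn
    rw [← hIco]
    refine Finset.sum_congr rfl fun i hi => ?_
    rw [Finset.mem_range] at hi
    by_cases h : 2 ≤ i
    · rw [if_pos h]
      rw [Finset.sum_eq_single (i / 2)]
      · rw [if_pos ⟨h, rfl⟩]; ring
      · intro j _ hj
        rw [if_neg (fun h' => hj h'.2)]
      · intro h'
        exact absurd (Finset.mem_range.2 (by omega)) h'
    · rw [if_neg h]
      refine Finset.sum_eq_zero fun j _ => ?_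
      rw [if_neg (fun h' => h h'.1)]
  have e2 : ∑ i ∈ range (2 * K), ∑ j ∈ range (2 * K),
      (if 2 ≤ j ∧ i = j / 2 then (F i - F j) ^ 2 else 0) = treeEn K F := by
    rw [Finset.sum_comm, ← e3]
    refine Finset.sum_congr rfl fun i _ => Finset.sum_congr rfl fun j _ => ?_
    by_cases h : 2 ≤ i ∧ j = i / 2
    · rw [if_pos h, if_pos h]; ring
    · rw [if_neg h, if_neg h]
  rw [e1, e2, e3]
  linarith

lemma treeClique_poincare (k : ℕ) (v : Fin (2 * 2 ^ k) → ℝ) :
    ∑ x, (v x - mean v) ^ 2 ≤ 6 * dir (treeClique k) v := by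
  have hK : 1 ≤ 2 ^ k := Nat.one_le_two_pow
  set F : ℕ → ℝ := fun i => if h : i < 2 * 2 ^ k then v ⟨i, h⟩ else 0 with hF
  have hv : v = fun x : Fin (2 * 2 ^ k) => F x := by
    ext x
    simp [hF]
  obtain ⟨c, hc⟩ := clq_bound (2 ^ k) hK F
  have h1 := dir_lower k F
  have h2 := tree_bound (2 ^ k) hK (fun i => F i - c)
  have h3 : treeEn (2 ^ k) (fun i => F i - c) = treeEn (2 ^ k) F := by
    unfold treeEn
    refine Finset.sum_congr rfl fun j _ => ?_
    ring
  rw [h3] at h2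
  -- replace the mean by `c`
  have h4 : ∑ x, (v x - mean v) ^ 2 ≤ ∑ x, (v x - c) ^ 2 := by
    set n : ℝ := (Fintype.card (Fin (2 * 2 ^ k)) : ℝ) with hn
    have hn0 : 0 < n := by
      rw [hn, Fintype.card_fin]
      exact_mod_cast (by omega : 0 < 2 * 2 ^ k)
    have hs : ∑ x, v x = n * mean v := by
      rw [mean, hn]; field_simp
    have h5 : ∀ x, (v x - c) ^ 2 = (v x - mean v) ^ 2 + 2 * (mean v - c) * v x +
        (c ^ 2 - mean v ^ 2) := by
      intro x; ring
    rw [Finset.sum_congr rfl fun x _ => h5 x, Finset.sum_add_distrib, Finset.sum_add_distrib,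
      ← Finset.mul_sum, hs]
    simp only [Finset.sum_const, Finset.card_univ, nsmul_eq_mul]
    rw [← hn]
    nlinarith [mul_nonneg hn0.le (sq_nonneg (mean v - c))]
  have h6 : ∑ x, (v x - c) ^ 2 = ∑ i ∈ Ico 1 (2 ^ k), (F i - c) ^ 2 +
      ∑ i ∈ insert 0 (Ico (2 ^ k) (2 * 2 ^ k)), (F i - c) ^ 2 := by
    have h7 : ∑ x, (v x - c) ^ 2 = ∑ i ∈ range (2 * 2 ^ k), (F i - c) ^ 2 := by
      rw [Finset.sum_range]
      refine Finset.sum_congr rfl fun x _ => ?_
      rw [hv]
    rw [h7, ← Finset.sum_union]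
    · refine Finset.sum_congr ?_ fun _ _ => rfl
      ext x
      simp only [Finset.mem_union, Finset.mem_insert, Finset.mem_Ico, Finset.mem_range]
      omega
    · rw [Finset.disjoint_left]
      intro x hx hx'
      simp only [Finset.mem_insert, Finset.mem_Ico] at hx hx'
      omega
  have h8 : ∑ i ∈ Ico (2 ^ k) (2 * 2 ^ k), (F i - c) ^ 2 ≤
      ∑ i ∈ insert 0 (Ico (2 ^ k) (2 * 2 ^ k)), (F i - c) ^ 2 :=
    Finset.sum_le_sum_of_subset_of_nonneg (Finset.subset_insert _ _) fun _ _ _ => sq_nonneg _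
  have h9 : dir (treeClique k) v = dir (treeClique k) (fun x : Fin (2 * 2 ^ k) => F x) := by
    rw [← hv]
  rw [h9]
  have h10 : 0 ≤ clqEn (2 ^ k) F := by
    unfold clqEn
    exact div_nonneg (Finset.sum_nonneg fun _ _ => Finset.sum_nonneg fun _ _ => sq_nonneg _)
      (by norm_num)
  have h11 : 0 ≤ treeEn (2 ^ k) F := Finset.sum_nonneg fun _ _ => sq_nonneg _
  have h12 : ∑ x, (v x - c) ^ 2 ≤ 6 * (clqEn (2 ^ k) F + treeEn (2 ^ k) F) := by
    rw [h6]; linarith
  linarith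

/-- The level function: depth in the tree, and `k` for the extra vertex `0`. -/
noncomputable def lev (k : ℕ) (x : Fin (2 * 2 ^ k)) : ℝ :=
  if (x : ℕ) = 0 then (k : ℝ) else (Nat.log 2 x : ℝ)

lemma log_half {j : ℕ} (hj : 2 ≤ j) : Nat.log 2 (j / 2) + 1 = Nat.log 2 j := by
  have h1 := Nat.log_div_base 2 j
  have h2 : 1 ≤ Nat.log 2 j := by
    rw [Nat.le_log_iff_pow_le Nat.one_lt_two (by omega)]
    simpa using hj
  omega

lemma lev_clq (k : ℕ) (x : Fin (2 * 2 ^ k)) (hx : clq (2 ^ k) x) : lev k x = k := by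
  unfold lev
  rcases hx with h | h
  · rw [if_pos h]
  · have h0 : (x : ℕ) ≠ 0 := by
      have : 1 ≤ 2 ^ k := Nat.one_le_two_pow
      omega
    rw [if_neg h0]
    have : Nat.log 2 (x : ℕ) = k := by
      rw [Nat.log_eq_iff (Or.inr ⟨by norm_num, h0⟩)]
      refine ⟨h, ?_⟩
      have := x.2
      rw [pow_succ]; omega
    rw [this]

lemma lev_drift (k : ℕ) (i : Fin (2 * 2 ^ k)) :
    (∑ j, if (treeClique k).Adj i j then lev k j - lev k i else 0) ≤ 2 := by
  have h1 : ∀ j : Fin (2 * 2 ^ k), (if (treeClique k).Adj i j then lev k j - lev k i else 0) ≤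
      (if (j : ℕ) = 2 * i then (1 : ℝ) else 0) + (if (j : ℕ) = 2 * i + 1 then (1 : ℝ) else 0) := by
    intro j
    have hnn : (0 : ℝ) ≤ (if (j : ℕ) = 2 * i then (1 : ℝ) else 0) +
        (if (j : ℕ) = 2 * i + 1 then (1 : ℝ) else 0) := by
      split_ifs <;> norm_num
    by_cases hadj : (treeClique k).Adj i j
    · rw [if_pos hadj]
      obtain ⟨hne, h | ⟨hi, hj, h | h⟩⟩ := hadj
      · rw [lev_clq k j h.2, lev_clq k i h.1, sub_self]
        exact hnn
      · -- j is a child of i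
        have hj2 : 2 ≤ (j : ℕ) := by omega
        have h3 := log_half hj2
        rw [← h] at h3
        unfold lev
        rw [if_neg hi, if_neg hj, ← h3]
        push_cast
        have h4 : (j : ℕ) = 2 * i ∨ (j : ℕ) = 2 * i + 1 := by omega
        rcases h4 with h4 | h4
        · rw [if_pos h4, if_neg (by omega)]; linarith
        · rw [if_neg (by omega), if_pos h4]; linarith
      · -- j is the parent of i
        have hi2 : 2 ≤ (i : ℕ) := by omega
        have h3 := log_half hi2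
        rw [← h] at h3
        unfold lev
        rw [if_neg hi, if_neg hj, ← h3]
        push_cast
        linarith
    · rw [if_neg hadj]; exact hnn
  refine (Finset.sum_le_sum fun j _ => h1 j).trans ?_
  rw [Finset.sum_add_distrib, Finset.sum_boole, Finset.sum_boole]
  have h2 : ∀ a : ℕ, (((univ : Finset (Fin (2 * 2 ^ k))).filter
      (fun j : Fin (2 * 2 ^ k) => (j : ℕ) = a)).card : ℝ)
      ≤ 1 := by
    intro a
    have : ((univ : Finset (Fin (2 * 2 ^ k))).filter
        (fun j : Fin (2 * 2 ^ k) => (j : ℕ) = a)).card ≤ 1 := by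
      rw [Finset.card_le_one]
      intro x hx y hy
      rw [Finset.mem_filter] at hx hy
      exact Fin.ext (hx.2.trans hy.2.symm)
    exact_mod_cast this
  linarith [h2 (2 * i), h2 (2 * i + 1)]

lemma edges_lower (k : ℕ) : (2 ^ k : ℝ) * (2 ^ k - 1) ≤
    2 * (Fintype.card (treeClique k).edgeSet : ℝ) := by
  have hK : 1 ≤ 2 ^ k := Nat.one_le_two_pow
  have h1 := sum_edge (treeClique k) (fun _ => (1 : ℝ))
  simp only [Finset.sum_const, Finset.card_univ, nsmul_eq_mul, mul_one] at h1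
  rw [h1]
  set K := 2 ^ k with hKdef
  have h2 : (∑ i : Fin (2 * K), ∑ j : Fin (2 * K), if (treeClique k).Adj i j then (1 : ℝ) else 0)
      = ∑ i ∈ range (2 * K), ∑ j ∈ range (2 * K), if tadj K i j then (1 : ℝ) else 0 := by
    rw [Finset.sum_range]
    refine Finset.sum_congr rfl fun i _ => ?_
    rw [Finset.sum_range]
    refine Finset.sum_congr rfl fun j _ => ?_
    simp only [treeClique_adj, ← hKdef]
  rw [h2, mul_div_cancel₀ _ (by norm_num : (2 : ℝ) ≠ 0)]
  have h3 : ∑ i ∈ Ico K (2 * K), ((K : ℝ) - 1) ≤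
      ∑ i ∈ range (2 * K), ∑ j ∈ range (2 * K), if tadj K i j then (1 : ℝ) else 0 := by
    have h4 : ∀ i ∈ Ico K (2 * K), ((K : ℝ) - 1) ≤
        ∑ j ∈ range (2 * K), if tadj K i j then (1 : ℝ) else 0 := by
      intro i hi
      rw [Finset.sum_boole]
      have h5 : (Ico K (2 * K)).erase i ⊆ (range (2 * K)).filter (fun j => tadj K i j) := by
        intro j hj
        rw [Finset.mem_erase, Finset.mem_Ico] at hj
        rw [Finset.mem_Ico] at hi
        rw [Finset.mem_filter, Finset.mem_range]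
        exact ⟨hj.2.2, fun h => hj.1 h.symm, Or.inl ⟨Or.inr hi.1, Or.inr hj.2.1⟩⟩
      have h6 := Finset.card_le_card h5
      rw [Finset.card_erase_of_mem hi, Nat.card_Ico] at h6
      have h7 : K ≤ ((range (2 * K)).filter (fun j => tadj K i j)).card + 1 := by omega
      have h8 : (K : ℝ) ≤ (((range (2 * K)).filter (fun j => tadj K i j)).card : ℝ) + 1 := by
        exact_mod_cast h7
      linarith
    refine (Finset.sum_le_sum h4).trans ?_
    refine Finset.sum_le_sum_of_subset_of_nonneg ?_ fun i _ _ => Finset.sum_nonneg fun j _ => ?_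
    · intro x hx
      rw [Finset.mem_Ico] at hx
      rw [Finset.mem_range]; exact hx.2
    · split_ifs <;> norm_num
  simp only [Finset.sum_const, Nat.card_Ico, nsmul_eq_mul] at h3
  have h4 : 2 * K - K = K := by omega
  rw [h4] at h3
  have h5 : ((2 : ℝ) ^ k) = (K : ℝ) := by rw [hKdef]; push_cast; ring
  rw [h5]
  exact h3

end Pool.Agent.helper95.Avg
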